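import Pool.Agent.Helper4.HD.Goals

/-!
Project SQ (MP_bb32d1_al), Dunkl block, packet ORD: orders of vanishing.
-/

set_option autoImplicit false

namespace Pool.Agent.Helper14.HD

open Pool.Agent.Helper4.HD

theorem ord : S_ORD := by
  intro Y b h hh heq y hy hy0
  obtain ⟨u, hu, hdvd⟩ := Polynomial.exists_eq_pow_rootMultiplicity_mul_and_not_dvd h hh y⁻¹
  obtain ⟨v, hv⟩ : ∃ v, v = Polynomial.rootMultiplicity y⁻¹ h := ⟨_, rfl⟩
  rw [← hv] at hu
  refine ⟨v, ?_⟩
  have hu0 : u.eval y⁻¹ ≠ 0 := fun h0 => hdvd (Polynomial.dvd_iff_isRoot.2 h0)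
  obtain ⟨T, hT⟩ : ∃ T : Polynomial ℂ, T = Polynomial.X - Polynomial.C y⁻¹ := ⟨_, rfl⟩
  obtain ⟨E, hE⟩ : ∃ E : Polynomial ℂ,
    E = ∏ z ∈ Y.erase y, (1 - Polynomial.C z * Polynomial.X) := ⟨_, rfl⟩
  have hT0 : T ≠ 0 := by
    rw [hT]
    exact Polynomial.X_sub_C_ne_zero _
  have hTe : T.eval y⁻¹ = 0 := by rw [hT]; simp
  have hL : (1 - Polynomial.C y * Polynomial.X : Polynomial ℂ) = - (Polynomial.C y * T) := by
    have h1 : (Polynomial.C y * Polynomial.C y⁻¹ : Polynomial ℂ) = 1 := by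
      rw [← Polynomial.C_mul, mul_inv_cancel₀ hy0, Polynomial.C_1]
    rw [hT, mul_sub, h1]
    ring
  have hEe : E.eval y⁻¹ ≠ 0 := by
    rw [hE, Polynomial.eval_prod]
    refine Finset.prod_ne_zero_iff.2 fun z hz h0 => ?_
    have hzy := Finset.ne_of_mem_erase hz
    simp only [Polynomial.eval_sub, Polynomial.eval_one, Polynomial.eval_mul, Polynomial.eval_C,
      Polynomial.eval_X] at h0
    apply hzy
    have h1 : z * y⁻¹ = 1 := (sub_eq_zero.1 h0).symm
    calc z = z * y⁻¹ * y := by rw [mul_assoc, inv_mul_cancel₀ hy0, mul_one]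
      _ = y := by rw [h1, one_mul]
  obtain ⟨R, hR⟩ : ∃ R : Polynomial ℂ, (∑ w ∈ Y, Polynomial.C (b w * w) *
      ∏ z ∈ Y.erase w, (1 - Polynomial.C z * Polynomial.X)) =
      Polynomial.C (b y * y) * E + T * R := by
    refine ⟨∑ w ∈ Y.erase y, Polynomial.C (b w * w) * (- Polynomial.C y *
      ∏ z ∈ (Y.erase w).erase y, (1 - Polynomial.C z * Polynomial.X)), ?_⟩
    rw [← Finset.add_sum_erase Y _ hy, ← hE, Finset.mul_sum]
    congr 1
    refine Finset.sum_congr rfl fun w hw => ?_
    have hwy := Finset.ne_of_mem_erase hw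
    rw [← Finset.mul_prod_erase (Y.erase w) _ (Finset.mem_erase.2 ⟨hwy.symm, hy⟩), hL]
    ring
  rw [hR, ← Finset.mul_prod_erase Y _ hy, ← hE, hL] at heq
  have hder : T * Polynomial.derivative h = T ^ v * (Polynomial.C (v : ℂ) * u +
      T * Polynomial.derivative u) := by
    rw [hu, ← hT, Polynomial.derivative_mul, hT, Polynomial.derivative_X_sub_C_pow, ← hT]
    rcases v with - | v
    · simp
    · rw [Nat.add_sub_cancel]
      ring
  have h2 : T ^ v * (- (Polynomial.C y * E) * (Polynomial.C (v : ℂ) * u +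
      T * Polynomial.derivative u)) = T ^ v * ((Polynomial.C (b y * y) * E + T * R) * u) := by
    calc T ^ v * (- (Polynomial.C y * E) * (Polynomial.C (v : ℂ) * u +
          T * Polynomial.derivative u))
        = - (Polynomial.C y * E) * (T ^ v * (Polynomial.C (v : ℂ) * u +
          T * Polynomial.derivative u)) := by ring
      _ = - (Polynomial.C y * T) * E * Polynomial.derivative h := by rw [← hder]; ring
      _ = (Polynomial.C (b y * y) * E + T * R) * h := heq
      _ = T ^ v * ((Polynomial.C (b y * y) * E + T * R) * u) := by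
        rw [hu, ← hT]
        ring
  have h3 := mul_left_cancel₀ (pow_ne_zero v hT0) h2
  have h4 := congrArg (Polynomial.eval y⁻¹) h3
  simp only [Polynomial.eval_mul, Polynomial.eval_add, Polynomial.eval_neg, Polynomial.eval_C,
    hTe, zero_mul, add_zero] at h4
  have h5 : (y * E.eval y⁻¹ * u.eval y⁻¹) * (b y + v) = 0 := by linear_combination -h4
  have h6 : b y + v = 0 := by
    rcases mul_eq_zero.1 h5 with h7 | h7
    · exact absurd h7 (mul_ne_zero (mul_ne_zero hy0 hEe) hu0)
    · exact h7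
  exact eq_neg_of_add_eq_zero_left h6

end Pool.Agent.Helper14.HD
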